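import Pool.Agent.Lib.MP_ae5b4e_an_PK.Defs

/-!
# POR (iii), N2, type I, HM: many points of type `I` at mutual distances `≥ 1`
-/

noncomputable section

namespace Pool.Agent.MP_ae5b4e_an_HM

open Complex Set Filter Topology Metric
open Pool.Agent.MP_ae5b4e_an_T (IAt)

theorem dens {v l : ℝ} {f : ℂ → ℂ} (hl : 0 < l) (hI : ∀ x0 : ℝ, ∃ x, |x - x0| ≤ l ∧ IAt v f x)
    (Y R : ℝ) (hR : 0 ≤ R) :
    ∃ S : Finset ℝ, (∀ x ∈ S, |x - Y| ≤ R ∧ IAt v f x) ∧
      (∀ x ∈ S, ∀ y ∈ S, x ≠ y → 1 ≤ |x - y|) ∧ R / (2 * l + 1) - 2 ≤ (S.card : ℝ) := by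
  classical
  choose g hg hgI using fun j : ℕ => hI (Y + (2 * l + 1) * j)
  have hL : 0 < 2 * l + 1 := by linarith
  have hsep : ∀ i j : ℕ, i < j → 1 ≤ g j - g i := by
    intro i j hij
    have h1 := (abs_le.1 (hg i)).2
    have h2 := (abs_le.1 (hg j)).1
    have h3 : (i : ℝ) + 1 ≤ j := by exact_mod_cast hij
    nlinarith
  have hsep' : ∀ i j : ℕ, i ≠ j → 1 ≤ |g i - g j| := by
    intro i j hij
    rcases lt_or_gt_of_ne hij with h | h
    · rw [abs_sub_comm]
      exact (hsep i j h).trans (le_abs_self _)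
    · exact (hsep j i h).trans (le_abs_self _)
  have hinj : Function.Injective g := by
    intro i j hij
    by_contra hne
    have h1 := hsep' i j hne
    rw [hij, sub_self, abs_zero] at h1
    linarith
  obtain ⟨m, hm⟩ : ∃ m : ℕ, m = ⌊R / (2 * l + 1)⌋₊ := ⟨_, rfl⟩
  have hm1 : (m : ℝ) * (2 * l + 1) ≤ R := by
    rw [← le_div_iff₀ hL, hm]
    exact Nat.floor_le (by positivity)
  refine ⟨(Finset.range m).image g, ?_, ?_, ?_⟩
  · intro x hx
    obtain ⟨j, hj, rfl⟩ := Finset.mem_image.1 hx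
    refine ⟨?_, hgI j⟩
    have hj1 : (j : ℝ) + 1 ≤ m := by exact_mod_cast Finset.mem_range.1 hj
    have h1 := abs_le.1 (hg j)
    have h2 : 0 ≤ (2 * l + 1) * (j : ℝ) := by positivity
    rw [abs_le]
    constructor
    · nlinarith [h1.1]
    · nlinarith [h1.2]
  · intro x hx y hy hxy
    obtain ⟨i, -, rfl⟩ := Finset.mem_image.1 hx
    obtain ⟨j, -, rfl⟩ := Finset.mem_image.1 hy
    exact hsep' i j fun h => hxy (by rw [h])
  · rw [Finset.card_image_of_injective _ hinj, Finset.card_range, hm]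
    have h1 := Nat.lt_floor_add_one (R / (2 * l + 1))
    linarith

end Pool.Agent.MP_ae5b4e_an_HM
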