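import Pool.Agent.Lib.MP_ae5b4e_an_PK.GeoB

/-!
# POR (iii), N2, type I, HM: horizontal drift of the label path
-/

noncomputable section

namespace Pool.Agent.MP_ae5b4e_an_HM

open Complex Set Filter Topology Metric
open Pool.Agent.MP_ae5b4e_an_T (Sl Deep IAt Hp)
open Pool.Agent.MP_ae5b4e_an_PK

/-- drift of the label path as long as the depth is at most `R` (`PK.re_path`, `PK.re_bound`) -/
theorem drift {q : ℂ → ℂ} {C γ v : ℝ} {f : ℂ → ℂ} (h : Sl q C γ v f) (ha : Asy f) {a : ℝ}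
    (ha0 : 0 < a) (ha1 : a ≤ 1) :
    ∃ C2 : ℝ, 1 ≤ C2 ∧ ∀ x s R : ℝ, 0 < s → s ≤ a → 1 ≤ R →
      (∀ s' ∈ Icc s a, dpt v f x s' ≤ R) →
      |(f (tp v x s)).re - x| ≤ C2 * R * (1 + Real.log (1 / s)) := by
  obtain ⟨C3, hC3, h3⟩ := re_bound h ha ha0 ha1
  refine ⟨C3 + 2, by linarith, fun x s R hs hsa hR hD => ?_⟩
  have h1 := re_path h hs hsa (D := R / 2) (fun r hr => by
    rw [mul_div_cancel₀ R two_ne_zero]
    exact hD r hr)
  have h2 := h3 x
  have h4 : 0 ≤ Real.log (1 / s) := Real.log_nonneg (by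
    rw [le_div_iff₀ hs]
    linarith)
  have h5 : Real.log (a / s) ≤ Real.log (1 / s) :=
    Real.log_le_log (by positivity) (div_le_div_of_nonneg_right ha1 hs.le)
  have h6 : |(f (tp v x s)).re - x| ≤
      |(f (tp v x s)).re - (f (tp v x a)).re| + |(f (tp v x a)).re - x| := abs_sub_le _ _ _
  have h7 : 4 * (R / 2) * Real.log (a / s) ≤ 2 * R * Real.log (1 / s) := by
    have : 4 * (R / 2) = 2 * R := by ring
    rw [this]
    exact mul_le_mul_of_nonneg_left h5 (by linarith)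
  have h8 : 0 ≤ R * Real.log (1 / s) := mul_nonneg (by linarith) h4
  have h9 : 0 ≤ C3 * (R * Real.log (1 / s)) := mul_nonneg hC3 h8
  have h10 : C3 ≤ C3 * R := le_mul_of_one_le_right hC3 hR
  nlinarith

end Pool.Agent.MP_ae5b4e_an_HM
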