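import Pool.Agent.Lib.MP_ae5b4e_an_HM.NE
import Pool.Agent.Lib.MP_ae5b4e_an_HM.Dens
import Pool.Agent.Lib.MP_ae5b4e_an_HM.Drift
import Pool.Agent.Lib.MP_ae5b4e_an_PK.Main
import Pool.Agent.Lib.MP_ae5b4e_an_GD.TC

/-!
# POR (iii), N2, type I, HM: superpolynomial decay of `q`

If one slice has points of type `I` in every interval of length `l`, then
`|q (Y - D i)| ≤ C exp (-c D ^ (1/5))` for all real `Y` and large `D`.
-/

noncomputable section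

namespace Pool.Agent.MP_ae5b4e_an_HM

open Complex Set Filter Topology Metric
open Pool.Agent.MP_ae5b4e_an_WB
open Pool.Agent.MP_ae5b4e_an_WD
open Pool.Agent.MP_ae5b4e_an_T
open Pool.Agent.MP_ae5b4e_an_PK
open Pool.Agent.MP_ae5b4e_an_M (S1 C1f Gf)

/-- `|Xf| ≤ B` below the points of type `I` -/
theorem x_bound {W : Set (ℂ → ℂ)} {C kap : ℝ} (hW : Fm W C kap) {q : ℂ → ℂ} (hq : q ∈ W)
    {γ v : ℝ} {f : ℂ → ℂ} (hγ : 1 ≤ γ) (h : Sl q C γ v f) (hd : Deep v f) (ha : Asy f) :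
    ∃ a B : ℝ, 0 < a ∧ a ≤ 1 ∧ 1 ≤ B ∧ ∀ x : ℝ, IAt v f x →
      ∀ s ∈ Ioc (0 : ℝ) a, ‖Xf q γ f (tp v x s)‖ ≤ B := by
  obtain ⟨K, κ, a, B, D1, Φ, hκ, -, ha0, ha1, hB, -, hE⟩ := entrance hW hq hγ h hd ha
  refine ⟨a, B, ha0, ha1, hB, fun x hI s hs => ?_⟩
  rw [iAt_iff] at hI
  have h1 : ∀ᶠ σ in 𝓝[>] (0 : ℝ), D1 ≤ dpt v f x σ := hI.eventually_ge_atTop _
  have h2 : ∀ᶠ σ in 𝓝[>] (0 : ℝ), σ ∈ Ioo (0 : ℝ) s := Ioo_mem_nhdsGT hs.1
  obtain ⟨σ, h3, h4⟩ := (h1.and h2).exists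
  obtain ⟨k, -, -, om, -, -, -, -, hX⟩ := hE x σ h4.1 (h4.2.trans_le hs.2) h3
  refine hX _ ⟨s, ⟨h4.2.le, hs.2⟩, mem_ball_self (mul_pos hκ hs.1)⟩

/-- one place, one scale: `R = ρ ^ 4`, `t = c1 ρ`, `r = c2 ρ ^ 5` -/
theorem decay_one {q : ℂ → ℂ} {C γ v : ℝ} {f : ℂ → ℂ} (h : Sl q C γ v f) (hd : Deep v f)
    {a C8 C2 : ℝ} (hC8 : 0 < C8) (hC2 : 1 ≤ C2)
    (hq8 : ∀ x : ℝ, IAt v f x → ∀ s ∈ Ioc (0 : ℝ) a,
      ‖q (f (tp v x s))‖ ≤ C8 * s ^ (2 / 3 : ℝ))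
    (hdr : ∀ (x s R : ℝ), 0 < s → s ≤ a → 1 ≤ R → (∀ s' ∈ Icc s a, dpt v f x s' ≤ R) →
      |(f (tp v x s)).re - x| ≤ C2 * R * (1 + Real.log (1 / s)))
    {Y R t x : ℝ} (hR : 1 ≤ R) (ht : 1 ≤ t) (hta : Real.exp (-t) ≤ a) (hx : |x - Y| ≤ R)
    (hI : IAt v f x) (hdep : ∀ s ∈ Icc (Real.exp (-t)) a, dpt v f x s < 2 * R) :
    ‖q (Y - (2 + 64 * ((2 * C2 + 2) * (R * t)) : ℝ) * I)‖ ≤ (C + C8) * Real.exp (-t / 9) := by
  have hC := h.C_pos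
  have hopH : IsOpen (Hp v) := isOpen_lt Complex.continuous_im continuous_const
  obtain ⟨s0, hs0⟩ : ∃ s0 : ℝ, s0 = Real.exp (-t) := ⟨_, rfl⟩
  have hs0p : 0 < s0 := by rw [hs0]; exact Real.exp_pos _
  rw [← hs0] at hta hdep
  have hRt : R ≤ R * t := by nlinarith
  obtain ⟨r, hr⟩ : ∃ r : ℝ, r = (2 * C2 + 2) * (R * t) := ⟨_, rfl⟩
  rw [← hr]
  have hr1 : 1 ≤ r := by
    rw [hr]
    nlinarith
  -- far end of the path
  obtain ⟨sb, hsb0, hsb1, hsbd⟩ : ∃ sb : ℝ, 0 < sb ∧ sb < s0 ∧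
      2000 * r + 1 ≤ dpt v f x sb := by
    have hI' := hI
    rw [iAt_iff] at hI'
    have h1 : ∀ᶠ σ in 𝓝[>] (0 : ℝ), 2000 * r + 1 ≤ dpt v f x σ := hI'.eventually_ge_atTop _
    have h2 : ∀ᶠ σ in 𝓝[>] (0 : ℝ), σ ∈ Ioo (0 : ℝ) s0 := Ioo_mem_nhdsGT hs0p
    obtain ⟨σ, h3, h4⟩ := (h1.and h2).exists
    exact ⟨σ, h4.1, h4.2, h3⟩
  have hb : ∀ z : ℂ, 1 ≤ -z.im → ‖q (z - I)‖ ≤ C + C8 := by
    intro z hz
    have h1 : (z - I).im = z.im - 1 := by simp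
    refine (h.qb (z - I) (by rw [h1]; linarith)).trans ?_
    rw [h1]
    have h2 : (1 : ℝ) ≤ (z.im - 1) ^ 2 := by nlinarith
    calc C / (z.im - 1) ^ 2 ≤ C / 1 := div_le_div_of_nonneg_left hC.le one_pos h2
      _ ≤ C + C8 := by rw [div_one]; linarith
  have hg : DifferentiableOn ℂ (fun z => q (z - I)) Hm := by
    refine h.qd.comp (by fun_prop) fun z hz => ?_
    have h1 : (z - I).im = z.im - 1 := by simp
    have h2 : z.im < 0 := hz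
    show (z - I).im < 0
    rw [h1]
    linarith
  have he : 0 < C8 * Real.exp (-(2 * t / 3)) := by positivity
  have heM : C8 * Real.exp (-(2 * t / 3)) ≤ C + C8 := by
    have h1 : Real.exp (-(2 * t / 3)) ≤ 1 := Real.exp_le_one_iff.2 (by linarith)
    nlinarith
  have hp : ContinuousOn (fun u : ℝ => f (tp v x (s0 - u)) + I) (Icc 0 (s0 - sb)) := by
    intro u hu
    have h1 : tp v x (s0 - u) ∈ Hp v := tp_mem (by linarith [hu.2])
    have h2 := (h.fd.differentiableAt (hopH.mem_nhds h1)).continuousAt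
    have h3 : ContinuousAt (fun u : ℝ => f (tp v x (s0 - u))) u :=
      ContinuousAt.comp (f := fun u : ℝ => tp v x (s0 - u)) h2
        (tp_hasDeriv v x s0 u).continuousAt
    exact (h3.add continuousAt_const).continuousWithinAt
  have hpe : ∀ u ∈ Icc (0 : ℝ) (s0 - sb), 2 ≤ -(f (tp v x (s0 - u)) + I).im ∧
      ‖q (f (tp v x (s0 - u)) + I - I)‖ ≤ C8 * Real.exp (-(2 * t / 3)) := by
    intro u hu
    have hsu : 0 < s0 - u := by linarith [hu.2]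
    have h1 := hd _ (tp_mem (v := v) (x := x) hsu)
    refine ⟨?_, ?_⟩
    · rw [add_im, I_im]
      linarith
    · rw [add_sub_cancel_right]
      refine (hq8 x hI (s0 - u) ⟨hsu, by linarith [hu.1]⟩).trans ?_
      apply mul_le_mul_of_nonneg_left _ hC8.le
      calc (s0 - u) ^ (2 / 3 : ℝ) ≤ s0 ^ (2 / 3 : ℝ) :=
            Real.rpow_le_rpow hsu.le (by linarith [hu.1]) (by norm_num)
        _ = Real.exp (-(2 * t / 3)) := by
            rw [hs0, ← Real.exp_mul]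
            congr 1
            ring
  have h0 : ‖f (tp v x (s0 - 0)) + I - (Y : ℂ)‖ ≤ 2 * r := by
    rw [sub_zero]
    have h1 := hdr x s0 (2 * R) hs0p hta (by linarith) fun s' hs' => (hdep s' hs').le
    have h2 : Real.log (1 / s0) = t := by
      rw [hs0, one_div, ← Real.exp_neg, neg_neg, Real.log_exp]
    rw [h2] at h1
    have h3 := hdep s0 ⟨le_rfl, hta⟩
    unfold dpt at h3
    have h4 := hd _ (tp_mem (v := v) (x := x) hs0p)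
    refine (norm_le_abs_re_add_abs_im _).trans ?_
    rw [sub_re, add_re, I_re, ofReal_re, sub_im, add_im, I_im, ofReal_im]
    have h5 : |(f (tp v x s0)).re + 0 - Y| ≤ C2 * (2 * R) * (1 + t) + R := by
      calc |(f (tp v x s0)).re + 0 - Y| = |((f (tp v x s0)).re - x) + (x - Y)| := by
            congr 1
            ring
        _ ≤ |(f (tp v x s0)).re - x| + |x - Y| := abs_add_le _ _
        _ ≤ _ := add_le_add h1 hx
    have h6 : |(f (tp v x s0)).im + 1 - 0| ≤ 2 * R := by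
      rw [abs_le]
      constructor <;> linarith
    have h7 : C2 * (2 * R) * (1 + t) ≤ 4 * C2 * (R * t) := by
      have h8 : 1 + t ≤ 2 * t := by linarith
      have h9 : 0 ≤ C2 * (2 * R) := by positivity
      nlinarith
    rw [hr]
    linarith
  have h1 : 2000 * r ≤ ‖f (tp v x (s0 - (s0 - sb))) + I - (Y : ℂ)‖ := by
    have h2 : s0 - (s0 - sb) = sb := by ring
    rw [h2]
    have h3 := abs_im_le_norm (f (tp v x sb) + I - (Y : ℂ))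
    rw [sub_im, add_im, I_im, ofReal_im] at h3
    unfold dpt at hsbd
    have h4 := neg_le_abs ((f (tp v x sb)).im + 1 - 0)
    linarith
  have hfin := Pool.Agent.MP_ae5b4e_an_GD.tc33 (g := fun z => q (z - I)) (Y := Y) hr1 he heM hg hb
    (show (0 : ℝ) ≤ s0 - sb by linarith) hp hpe h0 h1
  have e1 : (Y : ℂ) - (1 + 64 * r : ℝ) * I - I = Y - (2 + 64 * r : ℝ) * I := by
    push_cast
    ring
  rw [e1] at hfin
  refine hfin.trans ?_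
  apply mul_le_mul_of_nonneg_left _ (by positivity)
  have h2 : C8 * Real.exp (-(2 * t / 3)) / (C + C8) ≤ Real.exp (-(2 * t / 3)) := by
    rw [div_le_iff₀ (by positivity)]
    have := Real.exp_pos (-(2 * t / 3))
    nlinarith
  calc (C8 * Real.exp (-(2 * t / 3)) / (C + C8)) ^ (1 / 6 : ℝ)
      ≤ (Real.exp (-(2 * t / 3))) ^ (1 / 6 : ℝ) :=
        Real.rpow_le_rpow (by positivity) h2 (by norm_num)
    _ = Real.exp (-t / 9) := by
        rw [← Real.exp_mul]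
        congr 1
        ring

/-- `exp (-u) u ^ n` is bounded -/
theorem exp_pow_le {u : ℝ} (hu : 0 < u) (n : ℕ) : Real.exp (-u) * u ^ n ≤ n.factorial := by
  have h1 := Real.pow_div_factorial_le_exp u hu.le n
  have h2 : (0 : ℝ) < n.factorial := by exact_mod_cast n.factorial_pos
  rw [div_le_iff₀ h2] at h1
  have h3 := Real.exp_pos (-u)
  calc Real.exp (-u) * u ^ n ≤ Real.exp (-u) * (Real.exp u * n.factorial) :=
        mul_le_mul_of_nonneg_left h1 h3.le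
    _ = n.factorial := by
        rw [← mul_assoc, ← Real.exp_add, neg_add_cancel, Real.exp_zero, one_mul]

/-- from the scale `ρ` to superpolynomial decay -/
theorem spd_of {q : ℂ → ℂ} {C : ℝ} (hC : 0 < C)
    (hb : ∀ z : ℂ, 2 ≤ -z.im → ‖q z‖ ≤ C / z.im ^ 2) {c2 c4 M ρ0 : ℝ} (hc2 : 0 < c2)
    (hc4 : 0 < c4) (hM : 0 ≤ M) (hρ0 : 1 ≤ ρ0)
    (hdec : ∀ Y ρ : ℝ, ρ0 ≤ ρ → ‖q (Y - (2 + 64 * (c2 * ρ ^ 5) : ℝ) * I)‖ ≤
      M * Real.exp (-(c4 * ρ))) (B : ℕ) :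
    ∃ M' : ℝ, ∀ z : ℂ, 2 ≤ -z.im → ‖q z‖ * (-z.im) ^ B ≤ M' := by
  obtain ⟨D0, hD0⟩ : ∃ D0 : ℝ, D0 = 2 + 64 * (c2 * ρ0 ^ 5) := ⟨_, rfl⟩
  have hD0p : 0 < D0 := by rw [hD0]; positivity
  refine ⟨C * D0 ^ B + M * ((2 + 64 * c2) ^ B * (((5 * B).factorial : ℝ) / c4 ^ (5 * B))), ?_⟩
  intro z hz
  have hT1 : 0 ≤ C * D0 ^ B := by positivity
  have hT2 : 0 ≤ M * ((2 + 64 * c2) ^ B * (((5 * B).factorial : ℝ) / c4 ^ (5 * B))) := by
    positivity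
  rcases le_total (-z.im) D0 with h | h
  · have h1 : ‖q z‖ ≤ C := by
      refine (hb z hz).trans ?_
      have h2 : (1 : ℝ) ≤ z.im ^ 2 := by nlinarith
      calc C / z.im ^ 2 ≤ C / 1 := div_le_div_of_nonneg_left hC.le one_pos h2
        _ = C := div_one C
    have h2 : (-z.im) ^ B ≤ D0 ^ B := pow_le_pow_left₀ (by linarith) h B
    have h3 : ‖q z‖ * (-z.im) ^ B ≤ C * D0 ^ B :=
      mul_le_mul h1 h2 (pow_nonneg (by linarith) _) hC.le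
    linarith
  · obtain ⟨ρ, hρ⟩ : ∃ ρ : ℝ, ρ = ((-z.im - 2) / (64 * c2)) ^ (1 / 5 : ℝ) := ⟨_, rfl⟩
    have h64 : 0 < 64 * c2 := by positivity
    have hbase : ρ0 ^ 5 ≤ (-z.im - 2) / (64 * c2) := by
      rw [le_div_iff₀ h64]
      rw [hD0] at h
      nlinarith
    have hbase0 : 0 ≤ (-z.im - 2) / (64 * c2) := le_trans (by positivity) hbase
    have hρ5 : ρ ^ 5 = (-z.im - 2) / (64 * c2) := by
      rw [hρ, ← Real.rpow_natCast, ← Real.rpow_mul hbase0]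
      norm_num
    have hρ1 : ρ0 ≤ ρ := by
      have h1 : (ρ0 ^ 5) ^ (1 / 5 : ℝ) ≤ ((-z.im - 2) / (64 * c2)) ^ (1 / 5 : ℝ) :=
        Real.rpow_le_rpow (by positivity) hbase (by norm_num)
      have h2 : (ρ0 ^ 5) ^ (1 / 5 : ℝ) = ρ0 := by
        rw [← Real.rpow_natCast, ← Real.rpow_mul (by linarith)]
        norm_num
      rw [hρ, ← h2]
      exact h1
    have hρpos : 0 < ρ := by linarith
    have hzim : -z.im = 2 + 64 * (c2 * ρ ^ 5) := by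
      rw [hρ5]
      field_simp
      ring
    have hzeq : ((z.re : ℂ) - (2 + 64 * (c2 * ρ ^ 5) : ℝ) * I) = z := by
      rw [← hzim]
      apply Complex.ext <;> simp
    have h1 := hdec z.re ρ hρ1
    rw [hzeq] at h1
    have h2 : (-z.im) ^ B ≤ (2 + 64 * c2) ^ B * ρ ^ (5 * B) := by
      rw [pow_mul, ← mul_pow]
      apply pow_le_pow_left₀ (by linarith)
      rw [hzim]
      have h3 : (1 : ℝ) ≤ ρ ^ 5 := one_le_pow₀ (by linarith)
      nlinarith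
    have h3 := exp_pow_le (mul_pos hc4 hρpos) (5 * B)
    have h4 : Real.exp (-(c4 * ρ)) * ρ ^ (5 * B) ≤ ((5 * B).factorial : ℝ) / c4 ^ (5 * B) := by
      rw [le_div_iff₀ (by positivity)]
      rw [mul_pow] at h3
      nlinarith
    have h5 : ‖q z‖ * (-z.im) ^ B ≤
        (M * Real.exp (-(c4 * ρ))) * ((2 + 64 * c2) ^ B * ρ ^ (5 * B)) :=
      mul_le_mul h1 h2 (pow_nonneg (by linarith) _) (by positivity)
    have h6 : (M * Real.exp (-(c4 * ρ))) * ((2 + 64 * c2) ^ B * ρ ^ (5 * B)) =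
        M * ((2 + 64 * c2) ^ B * (Real.exp (-(c4 * ρ)) * ρ ^ (5 * B))) := by ring
    rw [h6] at h5
    have h7 : M * ((2 + 64 * c2) ^ B * (Real.exp (-(c4 * ρ)) * ρ ^ (5 * B))) ≤
        M * ((2 + 64 * c2) ^ B * (((5 * B).factorial : ℝ) / c4 ^ (5 * B))) :=
      mul_le_mul_of_nonneg_left (mul_le_mul_of_nonneg_left h4 (by positivity)) hM
    linarith

/-- HM. If one slice has points of type `I` in every interval of length `l`, then `q` decays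
superpolynomially (in fact like `exp (-c depth ^ (1/5))`) -/
theorem decay {W : Set (ℂ → ℂ)} {C kap : ℝ} (hW : Fm W C kap) {q : ℂ → ℂ} (hq : q ∈ W)
    {γ v : ℝ} {f : ℂ → ℂ} (hγ : 1 ≤ γ) (h : Sl q C γ v f) (hd : Deep v f) (ha : Asy f) {l : ℝ}
    (hI : ∀ x0 : ℝ, ∃ x ∈ Icc x0 (x0 + l), IAt v f x) (N : ℕ) :
    ∃ M : ℝ, ∀ z : ℂ, 2 ≤ -z.im → ‖q z‖ * (-z.im) ^ N ≤ M := by
  have hC := h.C_pos
  obtain ⟨a1, C1, ha1, ha1', hC1, hpk⟩ := packing hW hq hγ h hd ha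
  obtain ⟨a2, B, ha2, ha2', hB, hX⟩ := x_bound hW hq hγ h hd ha
  obtain ⟨a, haa⟩ : ∃ a : ℝ, a = min a1 a2 := ⟨_, rfl⟩
  have ha0 : 0 < a := by rw [haa]; exact lt_min ha1 ha2
  have haa1 : a ≤ a1 := by rw [haa]; exact min_le_left _ _
  have haa2 : a ≤ a2 := by rw [haa]; exact min_le_right _ _
  obtain ⟨C8, hC8, hne⟩ := no_escape h hγ hd (a := a2) (show 0 < B by linarith)
  have hq8 : ∀ x : ℝ, IAt v f x → ∀ s ∈ Ioc (0 : ℝ) a,
      ‖q (f (tp v x s))‖ ≤ C8 * s ^ (2 / 3 : ℝ) := fun x hx s hs =>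
    hne x hx (hX x hx) s ⟨hs.1, hs.2.trans haa2⟩
  obtain ⟨C2, hC2, hdr⟩ := drift h ha ha0 (haa1.trans ha1')
  obtain ⟨l', hl'⟩ : ∃ l' : ℝ, l' = max l 1 := ⟨_, rfl⟩
  have hl1 : 1 ≤ l' := by rw [hl']; exact le_max_right _ _
  have hll : l ≤ l' := by rw [hl']; exact le_max_left _ _
  have hI' : ∀ x0 : ℝ, ∃ x, |x - x0| ≤ l' ∧ IAt v f x := by
    intro x0
    obtain ⟨x, hx, hx'⟩ := hI x0
    refine ⟨x, ?_, hx'⟩
    rw [abs_le]
    constructor <;> linarith [hx.1, hx.2]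
  -- `c1` with `2 C1 c1 ^ 4 (4 (2 l' + 1)) = 1`, `c1 ≤ 1`
  obtain ⟨c1, hc1, hc11, hc14⟩ : ∃ c1 : ℝ, 0 < c1 ∧ c1 ≤ 1 ∧
      2 * C1 * c1 ^ 4 * (4 * (2 * l' + 1)) ≤ 1 := by
    refine ⟨1 / (8 * C1 * (2 * l' + 1)), by positivity, ?_, ?_⟩
    · rw [div_le_one (by positivity)]
      nlinarith
    · have h1 : 1 / (8 * C1 * (2 * l' + 1)) ≤ 1 := by
        rw [div_le_one (by positivity)]
        nlinarith
      have h2 : (0 : ℝ) ≤ 1 / (8 * C1 * (2 * l' + 1)) := by positivity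
      have h3 : (1 / (8 * C1 * (2 * l' + 1))) ^ 4 ≤ 1 / (8 * C1 * (2 * l' + 1)) := by
        calc (1 / (8 * C1 * (2 * l' + 1))) ^ 4 ≤ (1 / (8 * C1 * (2 * l' + 1))) ^ 1 :=
              pow_le_pow_of_le_one h2 h1 (by norm_num)
          _ = _ := pow_one _
      calc 2 * C1 * (1 / (8 * C1 * (2 * l' + 1))) ^ 4 * (4 * (2 * l' + 1))
          ≤ 2 * C1 * (1 / (8 * C1 * (2 * l' + 1))) * (4 * (2 * l' + 1)) := by gcongr
        _ = 1 := by field_simp; ring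
  -- the scale
  obtain ⟨ρ0, hρ0⟩ : ∃ ρ0 : ℝ, ρ0 = max (max (1 / c1) (Real.log (1 / a) / c1))
      (max C1 (4 * (2 * l' + 1))) := ⟨_, rfl⟩
  have hρ01 : 1 / c1 ≤ ρ0 := by rw [hρ0]; exact (le_max_left _ _).trans (le_max_left _ _)
  have hρ02 : Real.log (1 / a) / c1 ≤ ρ0 := by
    rw [hρ0]; exact (le_max_right _ _).trans (le_max_left _ _)
  have hρ03 : C1 ≤ ρ0 := by rw [hρ0]; exact (le_max_left _ _).trans (le_max_right _ _)
  have hρ04 : 4 * (2 * l' + 1) ≤ ρ0 := by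
    rw [hρ0]; exact (le_max_right _ _).trans (le_max_right _ _)
  have hρ0one : 1 ≤ ρ0 := by linarith
  refine spd_of hC h.qb (c2 := (2 * C2 + 2) * c1) (c4 := c1 / 9) (M := C + C8) (ρ0 := ρ0)
    (by positivity) (by positivity) (by positivity) hρ0one ?_ N
  intro Y ρ hρ
  have hρ1 : 1 ≤ ρ := hρ0one.trans hρ
  have hR : (1 : ℝ) ≤ ρ ^ 4 := one_le_pow₀ hρ1
  have hρR : ρ ≤ ρ ^ 4 := by
    calc ρ = ρ ^ 1 := (pow_one ρ).symm
      _ ≤ ρ ^ 4 := pow_le_pow_right₀ hρ1 (by norm_num)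
  have ht : 1 ≤ c1 * ρ := by
    have h1 := hρ01.trans hρ
    rw [div_le_iff₀ hc1] at h1
    linarith
  have hta : Real.exp (-(c1 * ρ)) ≤ a := by
    have h1 := hρ02.trans hρ
    rw [div_le_iff₀ hc1] at h1
    calc Real.exp (-(c1 * ρ)) ≤ Real.exp (-Real.log (1 / a)) :=
          Real.exp_le_exp.2 (by linarith)
      _ = a := by
          rw [one_div, Real.log_inv, neg_neg, Real.exp_log ha0]
  obtain ⟨S, hS1, hS2, hS3⟩ := dens (show 0 < l' by linarith) hI' Y (ρ ^ 4) (by positivity)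
  obtain ⟨x, hxS, hxd⟩ : ∃ x ∈ S, ∀ s ∈ Icc (Real.exp (-(c1 * ρ))) a,
      dpt v f x s < 2 * ρ ^ 4 := by
    by_contra hcon
    push Not at hcon
    have h1 := hpk (ρ ^ 4) (ρ ^ 4) (c1 * ρ) Y S hR ((hρ03.trans hρ).trans hρR) ht
      (fun x hx => by
        obtain ⟨s, hs, hs'⟩ := hcon x hx
        exact ⟨(hS1 x hx).1, s, ⟨hs.1, hs.2.trans haa1⟩, hs'⟩) hS2
    have h2 : ρ ^ 4 / ρ ^ 4 = 1 := div_self (by positivity)
    rw [h2] at h1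
    have h3 : C1 * (c1 * ρ) ^ 3 * (1 + c1 * ρ) ≤ 2 * C1 * c1 ^ 4 * ρ ^ 4 := by
      have h4 : 1 + c1 * ρ ≤ 2 * (c1 * ρ) := by linarith
      calc C1 * (c1 * ρ) ^ 3 * (1 + c1 * ρ) ≤ C1 * (c1 * ρ) ^ 3 * (2 * (c1 * ρ)) :=
            mul_le_mul_of_nonneg_left h4 (by positivity)
        _ = 2 * C1 * c1 ^ 4 * ρ ^ 4 := by ring
    obtain ⟨m, hm⟩ : ∃ m : ℝ, m = 2 * l' + 1 := ⟨_, rfl⟩
    rw [← hm] at hS3 hc14 hρ04
    have hm0 : 0 < m := by rw [hm]; linarith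
    have h5 : ρ ^ 4 / m - 2 ≤ 2 * C1 * c1 ^ 4 * ρ ^ 4 := hS3.trans (h1.trans h3)
    have h6 : ρ ^ 4 - 2 * m ≤ 2 * C1 * c1 ^ 4 * ρ ^ 4 * m := by
      have h7 := mul_le_mul_of_nonneg_right h5 hm0.le
      rwa [sub_mul, div_mul_cancel₀ _ hm0.ne'] at h7
    have h8 : 2 * C1 * c1 ^ 4 * ρ ^ 4 * m ≤ ρ ^ 4 / 4 := by
      have h9 : 2 * C1 * c1 ^ 4 * (4 * m) * ρ ^ 4 ≤ 1 * ρ ^ 4 :=
        mul_le_mul_of_nonneg_right hc14 (by positivity)
      linarith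
    have h10 : 4 * m ≤ ρ ^ 4 := (hρ04.trans hρ).trans hρR
    linarith
  have hfin := decay_one h hd hC8 hC2 hq8 hdr hR ht hta (hS1 x hxS).1 (hS1 x hxS).2 hxd
  have e1 : (2 * C2 + 2) * (ρ ^ 4 * (c1 * ρ)) = (2 * C2 + 2) * c1 * ρ ^ 5 := by ring
  have e2 : -(c1 * ρ) / 9 = -(c1 / 9 * ρ) := by ring
  rw [e1, e2] at hfin
  exact hfin

end Pool.Agent.MP_ae5b4e_an_HM
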