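import Pool.Agent.Lib.MP_ae5b4e_an_PK.Defs

/-!
# POR (iii), N2, type I, HM: NO ESCAPE

Below a point of type `I` the label runs to `- i ∞`, so `q` has to be small on the rest of the path:
`|q (f (tp v x s))| ≤ C8 s ^ (2/3)`.
-/

noncomputable section

namespace Pool.Agent.MP_ae5b4e_an_HM

open Complex Set Filter Topology Metric
open Pool.Agent.MP_ae5b4e_an_WB
open Pool.Agent.MP_ae5b4e_an_WD
open Pool.Agent.MP_ae5b4e_an_T
open Pool.Agent.MP_ae5b4e_an_PK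
open Pool.Agent.MP_ae5b4e_an_M (S1 C1f Gf)

/-- `q` is Lipschitz near a point of depth `≥ 3` -/
theorem q_lip {q : ℂ → ℂ} {C : ℝ} (hC : 0 < C) (hq : DifferentiableOn ℂ q Hm)
    (hb : ∀ z : ℂ, 2 ≤ -z.im → ‖q z‖ ≤ C / z.im ^ 2) {l z : ℂ} (hl : 3 ≤ -l.im)
    (hz : ‖z - l‖ ≤ 1 / 2) : ‖q z - q l‖ ≤ C / 2 * ‖z - l‖ := by
  have hop : IsOpen Hm := isOpen_lt Complex.continuous_im continuous_const
  have hdep : ∀ w : ℂ, ‖w - l‖ ≤ 1 → 2 ≤ -w.im := by
    intro w hw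
    have h1 := (abs_im_le_norm (w - l)).trans hw
    rw [sub_im, abs_le] at h1
    linarith
  have hsub : ∀ w ∈ closedBall l (1 / 2), ∀ w' ∈ ball w (1 / 2), 2 ≤ -w'.im := by
    intro w hw w' hw'
    apply hdep
    rw [mem_closedBall, dist_eq_norm] at hw
    rw [mem_ball, dist_eq_norm] at hw'
    calc ‖w' - l‖ = ‖(w' - w) + (w - l)‖ := by ring_nf
      _ ≤ ‖w' - w‖ + ‖w - l‖ := norm_add_le _ _
      _ ≤ 1 := by linarith
  have hHm : ∀ w : ℂ, 2 ≤ -w.im → w ∈ Hm := fun w hw => by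
    show w.im < 0
    linarith
  have hder : ∀ w ∈ closedBall l (1 / 2), ‖deriv q w‖ ≤ C / 2 := by
    intro w hw
    have h1 : ‖deriv q w‖ ≤ (C / 4) / (1 / 4) / 2 := by
      -- Cauchy estimate on slightly smaller circles
      have h3 : ∀ r : ℝ, 0 < r → r < 1 / 2 → ‖deriv q w‖ ≤ (C / 4) / r := by
        intro r hr0 hr1
        apply norm_deriv_le_of_forall_mem_sphere_norm_le hr0
        · have h4 : DifferentiableOn ℂ q (closedBall w r) := by
            refine hq.mono fun z' hz' => hHm _ (hsub w hw z' ?_)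
            rw [mem_closedBall] at hz'
            rw [mem_ball]
            linarith
          exact h4.diffContOnCl_ball subset_rfl
        · intro z' hz'
          have h5 := hsub w hw z' (by
            rw [mem_sphere] at hz'
            rw [mem_ball]
            linarith)
          refine (hb z' h5).trans ?_
          apply div_le_div_of_nonneg_left hC.le (by norm_num)
          nlinarith
      have h6 : ‖deriv q w‖ ≤ (C / 4) / (1 / 2) := by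
        refine le_of_forall_pos_le_add fun ε hε => ?_
        by_contra hcon
        push Not at hcon
        have h7 : 0 < ‖deriv q w‖ := lt_of_le_of_lt (by positivity) hcon
        have h8 : C / 4 < ‖deriv q w‖ * (1 / 2) := by
          have : C / 4 / (1 / 2) < ‖deriv q w‖ := by linarith
          rwa [div_lt_iff₀ (by norm_num)] at this
        obtain ⟨r, hr1, hr2⟩ := exists_between (show C / 4 / ‖deriv q w‖ < 1 / 2 by
          rw [div_lt_iff₀ h7]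
          linarith)
        have hr0 : 0 < r := lt_trans (by positivity) hr1
        have h9 := h3 r hr0 hr2
        rw [le_div_iff₀ hr0] at h9
        rw [div_lt_iff₀ h7] at hr1
        linarith
      calc ‖deriv q w‖ ≤ (C / 4) / (1 / 2) := h6
        _ = (C / 4) / (1 / 4) / 2 := by ring
    calc ‖deriv q w‖ ≤ (C / 4) / (1 / 4) / 2 := h1
      _ = C / 2 := by ring
  have hl' : l ∈ closedBall l (1 / 2) := mem_closedBall_self (by norm_num)
  have hz' : z ∈ closedBall l (1 / 2) := by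
    rw [mem_closedBall, dist_eq_norm]
    exact hz
  exact (convex_closedBall l (1 / 2)).norm_image_sub_le_of_norm_deriv_le
    (fun w hw => hq.differentiableAt (hop.mem_nhds (hHm w (hdep w (by
      rw [mem_closedBall, dist_eq_norm] at hw
      linarith))))) hder hl' hz'

theorem tp_hasDeriv (v x s1 r : ℝ) : HasDerivAt (fun r : ℝ => tp v x (s1 - r)) I r := by
  have h1 : HasDerivAt (fun r : ℝ => ((v + (s1 - r) : ℝ) : ℂ)) (((-1 : ℝ)) : ℂ) r := by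
    have h2 : HasDerivAt (fun r : ℝ => v + (s1 - r)) (-1 : ℝ) r := by
      have h3 := ((hasDerivAt_id r).const_sub s1).const_add v
      exact h3
    exact h2.ofReal_comp
  have h4 := ((h1.mul_const I).const_sub (x : ℂ))
  have h5 : -((((-1 : ℝ)) : ℂ) * I) = I := by
    push_cast
    ring
  rw [h5] at h4
  exact h4

/-- NO ESCAPE, with an explicit constant -/
theorem no_escape_core {q : ℂ → ℂ} {C γ v : ℝ} {f : ℂ → ℂ} (h : Sl q C γ v f) (hγ : 1 ≤ γ)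
    (hd : Deep v f) {a B : ℝ} (hB : 0 < B) (x : ℝ) (hI : IAt v f x)
    (hX : ∀ s ∈ Ioc (0 : ℝ) a, ‖Xf q γ f (tp v x s)‖ ≤ B) (s1 : ℝ) (hs1 : s1 ∈ Ioc (0 : ℝ) a) :
    ‖q (f (tp v x s1))‖ ≤ (2 * B * C ^ 2) ^ (1 / 3 : ℝ) * s1 ^ (2 / 3 : ℝ) := by
  have hC := h.C_pos
  have hopH : IsOpen (Hp v) := isOpen_lt Complex.continuous_im continuous_const
  obtain ⟨m, hm⟩ : ∃ m : ℝ, m = ‖q (f (tp v x s1))‖ := ⟨_, rfl⟩
  rw [← hm]
  have hm0 : 0 ≤ m := by rw [hm]; positivity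
  rcases hm0.eq_or_lt with h0 | hmpos
  · rw [← h0]
    have := hs1.1
    positivity
  -- the bound `m ≤ C / 9`
  have hl3 : 3 ≤ -(f (tp v x s1)).im := hd _ (tp_mem hs1.1)
  have hm9 : m ≤ C / 9 := by
    rw [hm]
    refine (h.qb _ (by linarith)).trans ?_
    apply div_le_div_of_nonneg_left hC.le (by norm_num)
    nlinarith
  have hδ : m / C ≤ 1 / 2 := by
    rw [div_le_iff₀ hC]
    linarith
  -- a time where the label is far away
  have hfar : ∃ s0 : ℝ, 0 < s0 ∧ s0 < s1 ∧ m / C ≤ ‖f (tp v x s0) - f (tp v x s1)‖ := by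
    rw [iAt_iff] at hI
    have h1 : ∀ᶠ s in 𝓝[>] (0 : ℝ), dpt v f x s1 + 1 ≤ dpt v f x s :=
      hI.eventually_ge_atTop _
    have h2 : ∀ᶠ s in 𝓝[>] (0 : ℝ), s ∈ Ioo (0 : ℝ) s1 := Ioo_mem_nhdsGT hs1.1
    obtain ⟨s0, h3, h4⟩ := (h1.and h2).exists
    refine ⟨s0, h4.1, h4.2, ?_⟩
    have h5 := abs_im_le_norm (f (tp v x s0) - f (tp v x s1))
    rw [sub_im] at h5
    unfold dpt at h3
    have h6 : (f (tp v x s0)).im - (f (tp v x s1)).im ≤ -1 := by linarith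
    have h7 : (1 : ℝ) ≤ |(f (tp v x s0)).im - (f (tp v x s1)).im| := by
      rw [le_abs]
      right
      linarith
    linarith
  obtain ⟨s0, hs0, hs01, hs0f⟩ := hfar
  set ψ : ℝ → ℂ := fun r => f (tp v x (s1 - r)) with hψ
  have hψd : ∀ r ∈ Icc (0 : ℝ) (s1 - s0),
      HasDerivAt ψ (deriv f (tp v x (s1 - r)) * I) r := by
    intro r hr
    have h1 : tp v x (s1 - r) ∈ Hp v := tp_mem (by linarith [hr.2])
    have h2 := (h.fd.differentiableAt (hopH.mem_nhds h1)).hasDerivAt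
    exact h2.comp_of_eq r (tp_hasDeriv v x s1 r) rfl
  have hψc : ContinuousOn ψ (Icc 0 (s1 - s0)) := fun r hr =>
    (hψd r hr).continuousAt.continuousWithinAt
  have hψ0 : ψ 0 = f (tp v x s1) := by simp [hψ]
  -- first exit
  obtain ⟨r2, hr2, hr2'⟩ : ∃ r2, IsLeast {r | r ∈ Icc (0 : ℝ) (s1 - s0) ∧
      m / C ≤ ‖ψ r - ψ 0‖} r2 := by
    have hK : IsCompact (Icc (0 : ℝ) (s1 - s0) ∩ (fun r => ‖ψ r - ψ 0‖) ⁻¹' Ici (m / C)) :=
      isCompact_Icc.of_isClosed_subset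
        ((hψc.sub continuousOn_const).norm.preimage_isClosed_of_isClosed isClosed_Icc
          isClosed_Ici) inter_subset_left
    have hne : (Icc (0 : ℝ) (s1 - s0) ∩
        (fun r => ‖ψ r - ψ 0‖) ⁻¹' Ici (m / C)).Nonempty := by
      refine ⟨s1 - s0, ⟨by linarith, le_rfl⟩, ?_⟩
      show m / C ≤ ‖ψ (s1 - s0) - ψ 0‖
      rw [hψ0]
      simpa [hψ] using hs0f
    obtain ⟨r2, h1⟩ := hK.exists_isLeast hne
    exact ⟨r2, ⟨h1.1.1, h1.1.2⟩, fun r hr => h1.2 ⟨hr.1, hr.2⟩⟩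
  obtain ⟨hr2I, hr2f⟩ := hr2
  have hin : ∀ r ∈ Ico (0 : ℝ) r2, ‖ψ r - ψ 0‖ < m / C := by
    intro r hr
    by_contra hcon
    push Not at hcon
    have := hr2' ⟨⟨hr.1, hr.2.le.trans hr2I.2⟩, hcon⟩
    linarith [hr.2]
  -- speed bound
  have hV : ∀ r ∈ Ico (0 : ℝ) r2, ‖deriv f (tp v x (s1 - r)) * I‖ ≤ Real.sqrt (2 * B / m) := by
    intro r hr
    have hrI : r ∈ Icc (0 : ℝ) (s1 - s0) := ⟨hr.1, hr.2.le.trans hr2I.2⟩
    rw [norm_mul, norm_I, mul_one]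
    apply Real.le_sqrt_of_sq_le
    have h1 := hin r hr
    have h2 := q_lip hC h.qd h.qb hl3 (z := ψ r) (by
      rw [← hψ0]
      linarith)
    have h3 : m / 2 ≤ ‖q (ψ r)‖ := by
      have h4 : ‖q (f (tp v x s1))‖ ≤ ‖q (ψ r)‖ + ‖q (ψ r) - q (f (tp v x s1))‖ := by
        have h5 := norm_sub_norm_le (q (f (tp v x s1))) (q (ψ r))
        rw [norm_sub_rev] at h5
        linarith
      rw [← hm] at h4
      rw [hψ0] at h1
      have h6 : C / 2 * ‖ψ r - f (tp v x s1)‖ ≤ C / 2 * (m / C) :=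
        mul_le_mul_of_nonneg_left h1.le (by positivity)
      have h7 : C / 2 * (m / C) = m / 2 := by
        field_simp
      linarith
    have h8 := hX (s1 - r) ⟨by linarith [hrI.2], by linarith [hs1.2, hrI.1]⟩
    unfold Xf at h8
    rw [norm_mul, norm_pow, norm_mul, norm_real, Real.norm_eq_abs, abs_of_pos h.γ_pos] at h8
    have h9 : ‖q (f (tp v x (s1 - r)))‖ = ‖q (ψ r)‖ := rfl
    rw [h9] at h8
    rw [le_div_iff₀ hmpos]
    have h10 : ‖deriv f (tp v x (s1 - r))‖ ^ 2 ≤ (γ * ‖deriv f (tp v x (s1 - r))‖) ^ 2 := by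
      rw [mul_pow]
      have : (1 : ℝ) ≤ γ ^ 2 := by nlinarith
      nlinarith [sq_nonneg ‖deriv f (tp v x (s1 - r))‖]
    have h11 : m / 2 * (γ * ‖deriv f (tp v x (s1 - r))‖) ^ 2 ≤ B :=
      (mul_le_mul_of_nonneg_right h3 (sq_nonneg _)).trans h8
    nlinarith [sq_nonneg ‖deriv f (tp v x (s1 - r))‖]
  have hmv := norm_image_sub_le_of_norm_deriv_le_segment' (f := ψ)
    (f' := fun r => deriv f (tp v x (s1 - r)) * I) (C := Real.sqrt (2 * B / m)) (a := 0)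
    (b := r2) (fun r hr => (hψd r ⟨hr.1, hr.2.trans hr2I.2⟩).hasDerivWithinAt) hV r2
    ⟨hr2I.1, le_rfl⟩
  have hr2s : r2 ≤ s1 := by linarith [hr2I.2]
  have h12 : m / C ≤ Real.sqrt (2 * B / m) * s1 := by
    refine hr2f.trans (hmv.trans ?_)
    rw [sub_zero]
    exact mul_le_mul_of_nonneg_left hr2s (Real.sqrt_nonneg _)
  have h13 : (m / C) ^ 2 ≤ 2 * B / m * s1 ^ 2 := by
    have h14 := pow_le_pow_left₀ (by positivity) h12 2
    rwa [mul_pow, Real.sq_sqrt (by positivity)] at h14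
  have h15 : m ^ 3 ≤ 2 * B * C ^ 2 * s1 ^ 2 := by
    rw [div_pow, div_mul_eq_mul_div, div_le_div_iff₀ (by positivity) hmpos] at h13
    nlinarith
  have hs1p := hs1.1
  have h16 : m = (m ^ 3) ^ (1 / 3 : ℝ) := by
    rw [← Real.rpow_natCast, ← Real.rpow_mul hm0]
    norm_num
  rw [h16]
  calc (m ^ 3) ^ (1 / 3 : ℝ) ≤ (2 * B * C ^ 2 * s1 ^ 2) ^ (1 / 3 : ℝ) :=
        Real.rpow_le_rpow (by positivity) h15 (by norm_num)
    _ = (2 * B * C ^ 2) ^ (1 / 3 : ℝ) * (s1 ^ 2) ^ (1 / 3 : ℝ) :=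
        Real.mul_rpow (by positivity) (by positivity)
    _ = (2 * B * C ^ 2) ^ (1 / 3 : ℝ) * s1 ^ (2 / 3 : ℝ) := by
        congr 1
        rw [← Real.rpow_natCast, ← Real.rpow_mul hs1p.le]
        norm_num

/-- NO ESCAPE -/
theorem no_escape {q : ℂ → ℂ} {C γ v : ℝ} {f : ℂ → ℂ} (h : Sl q C γ v f) (hγ : 1 ≤ γ)
    (hd : Deep v f) {a B : ℝ} (hB : 0 < B) :
    ∃ C8 : ℝ, 0 < C8 ∧ ∀ x : ℝ, IAt v f x →
      (∀ s ∈ Ioc (0 : ℝ) a, ‖Xf q γ f (tp v x s)‖ ≤ B) →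
      ∀ s ∈ Ioc (0 : ℝ) a, ‖q (f (tp v x s))‖ ≤ C8 * s ^ (2 / 3 : ℝ) := by
  have hC := h.C_pos
  exact ⟨(2 * B * C ^ 2) ^ (1 / 3 : ℝ), by positivity, fun x hI hX s hs =>
    no_escape_core h hγ hd hB x hI hX s hs⟩

/-- NO ESCAPE, in the form of `NI/Top.noesc` -/
theorem noesc {q : ℂ → ℂ} {C γ B : ℝ} (hC : 0 < C) (hγ : 1 ≤ γ) (hB : 0 < B) :
    ∃ C' : ℝ, 0 < C' ∧ ∀ (v : ℝ) (f : ℂ → ℂ) (x a : ℝ), Sl q C γ v f → Deep v f → IAt v f x →
      0 < a → (∀ s ∈ Ioc (0 : ℝ) a, ‖Xf q γ f (tp v x s)‖ ≤ B) →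
        ∀ s ∈ Ioc (0 : ℝ) a, ‖q (f (tp v x s))‖ ≤ C' * s ^ (2 / 3 : ℝ) :=
  ⟨(2 * B * C ^ 2) ^ (1 / 3 : ℝ), by positivity, fun _ _ x _ h hd hI _ hX s hs =>
    no_escape_core h hγ hd hB x hI hX s hs⟩

end Pool.Agent.MP_ae5b4e_an_HM
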